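import Pool.Agent.Helper82.EN.Basic

set_option autoImplicit false

namespace Pool.Agent.Helper82.EN

theorem vis_last (p : ℕ → ℤ) (hp : ∀ t, |p (t + 1) - p t| ≤ 1) (a b : ℕ) (z : ℤ) (hab : a ≤ b)
    (ha : z ≤ p a) (hb : p b < z) :
    ∃ t, a ≤ t ∧ t < b ∧ p t = z ∧ ∀ u, t < u → u ≤ b → p u < z := by
  induction b, hab using Nat.le_induction with
  | base => omega
  | succ b hab ih =>
    by_cases h : p b < z
    · obtain ⟨t, h1, h2, h3, h4⟩ := ih h
      refine ⟨t, h1, by omega, h3, fun u hu1 hu2 => ?_⟩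
      rcases Nat.lt_or_ge b u with h5 | h5
      · have : u = b + 1 := by omega
        rw [this]; exact hb
      · exact h4 u hu1 h5
    · have h1 := abs_le.1 (hp b)
      refine ⟨b, hab, by omega, by omega, fun u hu1 hu2 => ?_⟩
      have : u = b + 1 := by omega
      rw [this]; exact hb

theorem vis_first (p : ℕ → ℤ) (hp : ∀ t, |p (t + 1) - p t| ≤ 1) (a b : ℕ) (z : ℤ) (hab : a ≤ b)
    (ha : p a < z) (hb : z ≤ p b) :
    ∃ t, a ≤ t ∧ t ≤ b ∧ p t = z ∧ ∀ u, a ≤ u → u < t → p u < z := by
  classical
  have hex : ∃ t, a ≤ t ∧ z ≤ p t := ⟨b, hab, hb⟩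
  have h1 := Nat.find_spec hex
  have h2 : ∀ u, a ≤ u → u < Nat.find hex → p u < z := by
    intro u hu1 hu2
    by_contra h
    exact Nat.find_min hex hu2 ⟨hu1, by omega⟩
  have h3 : Nat.find hex ≤ b := Nat.find_min' hex ⟨hab, hb⟩
  generalize Nat.find hex = t at h1 h2 h3
  have h4 : a ≠ t := by
    rintro rfl
    omega
  obtain ⟨s, rfl⟩ : ∃ s, t = s + 1 := ⟨t - 1, by omega⟩
  have h5 := h2 s (by omega) (by omega)
  have h6 := abs_le.1 (hp s)
  exact ⟨s + 1, h1.1, h3, by omega, h2⟩

theorem vis_mono (S : ℕ → ℕ) (L : ℕ) (h0 : S 0 = 0)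
    (hS : ∀ j, 1 ≤ j → S j + L ≤ S (j + 1) ∧ S (j + 1) ≤ S j + 2 * L) : Monotone S := by
  apply monotone_nat_of_le_succ
  intro n
  rcases Nat.eq_zero_or_pos n with rfl | hn
  · rw [h0]; exact Nat.zero_le _
  · have := hS n hn
    omega

theorem vis_lab (S : ℕ → ℕ) (L : ℕ) (h0 : S 0 = 0) (hL : 1 ≤ L)
    (hS : ∀ j, 1 ≤ j → S j + L ≤ S (j + 1) ∧ S (j + 1) ≤ S j + 2 * L) (u : ℕ) :
    ∃ l, S l ≤ u ∧ u < S (l + 1) := by
  classical
  have hbig : ∀ n, n ≤ S (n + 1) := by
    intro n
    induction n with
    | zero => exact Nat.zero_le _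
    | succ n ih => have := hS (n + 1) (by omega); omega
  have hex : ∃ l, u < S (l + 1) := ⟨u + 1, by have := hbig (u + 1); omega⟩
  refine ⟨Nat.find hex, ?_, Nat.find_spec hex⟩
  rcases Nat.eq_zero_or_pos (Nat.find hex) with h | h
  · rw [h, h0]; exact Nat.zero_le _
  · have := Nat.find_min hex (m := Nat.find hex - 1) (by omega)
    rw [Nat.sub_add_cancel h] at this
    omega

/-- the key fact -/
theorem vis_E (p : ℕ → ℤ) (S : ℕ → ℕ) (good : ℕ → Prop) (L κ k : ℕ)
    (hp : ∀ t, |p (t + 1) - p t| ≤ 1) (h0 : S 0 = 0)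
    (hS : ∀ j, 1 ≤ j → S j + L ≤ S (j + 1) ∧ S (j + 1) ≤ S j + 2 * L)
    (hL : 100 * κ + 100 ≤ L) (hg0 : ¬ good 0)
    (hst : ∀ a b, a ≤ b → (∀ j, a ≤ j → j ≤ b → good j) →
      ∃ s : ℤ, (s = 1 ∨ s = -1) ∧ Stead p κ s (S a) (S (b + 1)))
    (hk : 14 ≤ k)
    (hev : ∀ l, Near good l → ∀ t, S (k - 13) ≤ t → t < S (k + 3) → ¬ Ev p S l t)
    (z : ℤ) (u l : ℕ) (hz : p (S (k - 13)) + κ < z) (hu : u < S (k - 13)) (hpu : p u = z)
    (hul : S l ≤ u) (hul' : u < S (l + 1))
    (hz' : ∃ t, S (k - 13) ≤ t ∧ t < S (k + 3) ∧ z + 1 ≤ p t)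
    (hno : ∀ t, S l ≤ t → t < S (k - 13) → p t ≠ z + 1) :
    3 ≤ l ∧ l + 14 ≤ k ∧ (∀ j, l ≤ j + 2 → j ≤ l + 2 → good j) ∧
      Stead p κ (-1) (S (l - 2)) (S (l + 3)) ∧ ∃ v, S (l - 1) ≤ v ∧ v < S l ∧ p v = z + 1 := by
  have hmono := vis_mono S L h0 hS
  have hlk : l + 14 ≤ k := by
    by_contra h
    have := hmono (show k - 13 ≤ l by omega)
    omega
  have hle : ∀ t, S l ≤ t → t < S (k - 13) → p t ≤ z := by
    intro t ht1 ht2
    by_contra hcon
    rcases le_or_gt t u with h | h
    · obtain ⟨v, hv1, hv2, hv3, -⟩ := vis_last p hp t u (z + 1) h (by omega) (by omega)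
      exact hno v (by omega) (by omega) hv3
    · obtain ⟨v, hv1, hv2, hv3, -⟩ := vis_first p hp u t (z + 1) (by omega) (by omega) (by omega)
      exact hno v (by omega) (by omega) hv3
  have ht0 : S (l + 1) ≤ S (k - 13) := hmono (by omega)
  obtain ⟨t2, ht2, ht2', ht2''⟩ := hz'
  obtain ⟨t, ht1, ht3, ht4, ht5⟩ :=
    vis_first p hp (S (k - 13)) t2 (z + 1) ht2 (by omega) ht2''
  have hEv : Ev p S l t := by
    refine ⟨by omega, fun w hw1 hw2 => ?_, u, hul, hul', by omega⟩
    rw [ht4]
    rcases Nat.lt_or_ge w (S (k - 13)) with h | h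
    · have := hle w hw1 h; omega
    · exact ht5 w h hw2
  have hnn : ¬ Near good l := fun h => hev l h t ht1 (by omega) hEv
  have hgood : ∀ j, l ≤ j + 2 → j ≤ l + 2 → good j := by
    intro j hj1 hj2
    by_contra h
    exact hnn ⟨j, h, by omega, by omega⟩
  have hl3 : 3 ≤ l := by
    by_contra h
    exact hg0 (hgood 0 (by omega) (by omega))
  obtain ⟨s, hs, hs'⟩ := hst (l - 2) (l + 2) (by omega) fun j h1 h2 => hgood j (by omega) (by omega)
  have e1 := hS (l - 1) (by omega)
  rw [show l - 1 + 1 = l by omega] at e1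
  have e0 := hmono (show l - 2 ≤ l - 1 by omega)
  have e2 := hS l (by omega)
  have e3 := hS (l + 1) (by omega)
  have e4 := hS (l + 2) (by omega)
  have e5 : l + 2 + 1 = l + 3 := rfl
  have e6 : l + 1 + 1 = l + 2 := rfl
  rw [e6] at e3
  rw [e5] at e4 hs'
  rcases hs with rfl | rfl
  · exfalso
    rcases Nat.lt_or_ge (l + 14) k with h | h
    · have h1 : S (l + 2) ≤ S (k - 13) := hmono (by omega)
      have h2 := hs' u (S (l + 2) - 1) (by omega) (by omega) (by omega)
      have h3 := hle (S (l + 2) - 1) (by omega) (by omega)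
      omega
    · have h1 : k - 13 = l + 1 := by omega
      rw [h1] at hz
      have h2 := hs' u (S (l + 1)) (by omega) (by omega) (by omega)
      omega
  · refine ⟨hl3, hlk, hgood, hs', ?_⟩
    have h2 := hs' (S (l - 1)) u (by omega) (by omega) (by omega)
    have h3 := hle (S l) le_rfl (by omega)
    obtain ⟨v, hv1, hv2, hv3, -⟩ := vis_last p hp (S (l - 1)) (S l) (z + 1) (by omega) (by omega)
      (by omega)
    exact ⟨v, hv1, hv2, hv3⟩

theorem st_VIS : ST_VIS := by
  intro p S good L κ k hp h0 h1L hS hL hg0 hst hk hgk hstk hev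
  classical
  have hmono := vis_mono S L h0 hS
  have hlab := vis_lab S L h0 (by omega) hS
  choose lab hlab1 hlab2 using hlab
  have labmono : ∀ u v, u ≤ v → lab u ≤ lab v := by
    intro u v huv
    by_contra h
    have h1 := hmono (show lab v + 1 ≤ lab u by omega)
    have h2 := hlab1 u
    have h3 := hlab2 v
    omega
  have lable : ∀ u l, S l ≤ u → l ≤ lab u := by
    intro u l h
    by_contra h'
    have h1 := hmono (show lab u + 1 ≤ l by omega)
    have h2 := hlab2 u
    omega
  have labge : ∀ u l, u < S (l + 1) → lab u ≤ l := by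
    intro u l h
    by_contra h'
    have h1 := hmono (show l + 1 ≤ lab u by omega)
    have h2 := hlab1 u
    omega
  -- block lengths
  have b13 : S (k - 13) + 13 * L ≤ S k := by
    have key : ∀ i, S (k - 13) + i * L ≤ S (k - 13 + i) := by
      intro i
      induction i with
      | zero => simp
      | succ i ih =>
        have := hS (k - 13 + i) (by omega)
        rw [show k - 13 + (i + 1) = k - 13 + i + 1 by omega, Nat.succ_mul]
        omega
    have := key 13
    rwa [show k - 13 + 13 = k by omega] at this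
  have b3 : S k + 3 * L ≤ S (k + 3) := by
    have e1 := hS k (by omega)
    have e2 := hS (k + 1) (by omega)
    have e3 := hS (k + 2) (by omega)
    rw [show k + 1 + 1 = k + 2 from rfl] at e2
    rw [show k + 2 + 1 = k + 3 from rfl] at e3
    omega
  set t0 := S (k - 13) with ht0
  -- the maxima
  obtain ⟨tF, htF, hF⟩ := Finset.exists_max_image (Finset.Ico t0 (S k)) p
    ⟨t0, by rw [Finset.mem_Ico]; omega⟩
  rw [Finset.mem_Ico] at htF
  obtain ⟨tG, htG, hG⟩ := Finset.exists_max_image (Finset.Ico t0 (S (k + 3))) p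
    ⟨t0, by rw [Finset.mem_Ico]; omega⟩
  rw [Finset.mem_Ico] at htG
  have hF' : ∀ t, t0 ≤ t → t < S k → p t ≤ p tF := fun t h1 h2 =>
    hF t (Finset.mem_Ico.2 ⟨h1, h2⟩)
  have hG' : ∀ t, t0 ≤ t → t < S (k + 3) → p t ≤ p tG := fun t h1 h2 =>
    hG t (Finset.mem_Ico.2 ⟨h1, h2⟩)
  have hz1G : p tF + 1 ≤ p tG := by
    have e1 := hstk tF (S (k + 3) - 1) (by omega) (by omega) (by omega)
    have e2 := hG' (S (k + 3) - 1) (by omega) (by omega)
    omega
  have hz1t : (5 : ℤ) * (p tF + 1) ≥ 5 * p t0 + 13 * L - 5 * κ := by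
    have e1 := hstk t0 (S k - 1) (by omega) (by omega) (by omega)
    have e2 := hF' (S k - 1) (by omega) (by omega)
    omega
  have hReg : ∀ z, Reg p S k 1 z → p tF + 1 ≤ z ∧ z ≤ p tG := by
    rintro z ⟨h1, t, h2, h3, h4⟩
    have e1 := h1 tF (by omega) (by omega)
    have e2 := hG' t (by omega) (by omega)
    omega
  have hE := vis_E p S good L κ k hp h0 hS hL hg0 hst hk hev
  rw [← ht0] at hE
  by_cases hcase : ∀ t < t0, p t ≠ p tF + 1
  · -- unvisited case
    right
    have hlt : ∀ t < t0, p t < p tF + 1 := by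
      intro t ht
      by_contra h
      obtain ⟨v, hv1, hv2, hv3, -⟩ := vis_last p hp t t0 (p tF + 1) (by omega) (by omega)
        (by have := hF' t0 (by omega) (by omega); omega)
      exact hcase v hv2 hv3
    refine ⟨fun z hz t ht => ?_, ?_⟩
    · have e1 := (hReg z hz).1
      have e2 := hlt t ht
      omega
    · intro z hz t ht hcon
      obtain ⟨tm, htm, hm⟩ := Finset.exists_max_image (Finset.range t0) p
        ⟨t, Finset.mem_range.2 ht⟩
      rw [Finset.mem_range] at htm
      have hm' : ∀ t < t0, p t ≤ p tm := fun t h => hm t (Finset.mem_range.2 h)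
      have e1 := hm' t ht
      have e2 := hlt tm htm
      obtain ⟨-, -, -, -, v, hv1, hv2, hv3⟩ := hE (p tm) tm (lab tm) (by omega) htm rfl
        (hlab1 tm) (hlab2 tm) ⟨tG, htG.1, htG.2, by omega⟩
        (fun w hw1 hw2 hw3 => by have := hm' w hw2; omega)
      have e3 := hm' v (by have := hlab1 tm; omega)
      omega
  · -- visited case
    left
    push Not at hcase
    obtain ⟨t1, ht1, ht1'⟩ := hcase
    have hpt0 : p t0 < p tF + 1 := by have := hF' t0 (by omega) (by omega); omega
    -- last visits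
    have hVex : ∀ (w : ℕ) (z : ℤ), w < t0 → z ≤ p w → p t0 < z → ∃ u, w ≤ u ∧ u < t0 ∧ p u = z ∧
        ∀ v, u < v → v ≤ t0 → p v < z := by
      intro w z hw h1 h2
      obtain ⟨u, h3, h4, h5, h6⟩ := vis_last p hp w t0 z (by omega) h1 h2
      exact ⟨u, h3, h4, h5, h6⟩
    obtain ⟨u1, -, hu1, hu1', hu1''⟩ := hVex t1 (p tF + 1) ht1 (by omega) hpt0
    have hord : ∀ (z z' : ℤ) (u u' : ℕ), z < z' → p u' = z' → u' < t0 → p u = z →
        (∀ v, u < v → v ≤ t0 → p v < z) → u' < u := by
      intro z z' u u' h1 h2 h3 h4 h5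
      by_contra h
      rcases Nat.lt_or_ge u u' with h6 | h6
      · have := h5 u' h6 (by omega); omega
      · have : u = u' := by omega
        rw [this] at h4
        omega
    -- Claim A
    have hA : ∃ (za : ℤ) (ua ub : ℕ), p t0 + κ < za ∧ za + 1 ≤ p tF + 1 ∧
        ua < t0 ∧ p ua = za ∧ (∀ v, ua < v → v ≤ t0 → p v < za) ∧
        ub < t0 ∧ p ub = za + 1 ∧ (∀ v, ub < v → v ≤ t0 → p v < za + 1) ∧
        lab ub = lab u1 ∧ lab u1 < lab ua := by
      by_contra hcon
      have key : ∀ m : ℕ, p t0 + κ < p tF + 1 - m → ∃ u, u < t0 ∧ p u = p tF + 1 - m ∧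
          (∀ v, u < v → v ≤ t0 → p v < p tF + 1 - m) ∧ lab u = lab u1 := by
        intro m
        induction m with
        | zero =>
          intro _
          refine ⟨u1, hu1, by simpa using hu1', by simpa using hu1'', rfl⟩
        | succ m ih =>
          intro hm
          push_cast at hm
          obtain ⟨ub, h1, h2, h3, h4⟩ := ih (by omega)
          obtain ⟨ua, -, h5, h6, h7⟩ := hVex ub (p tF + 1 - (m + 1)) h1 (by omega) (by omega)
          refine ⟨ua, h5, by push_cast; exact h6, by push_cast; exact h7, ?_⟩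
          by_contra h8
          apply hcon
          have h9 := hord _ _ ua ub (by omega) h2 h1 h6 h7
          have h10 := labmono ub ua (by omega)
          refine ⟨p tF + 1 - (m + 1), ua, ub, hm, by omega, h5, h6, h7, h1, by omega, ?_, h4,
            by omega⟩
          intro v hv1 hv2
          have := h3 v hv1 hv2
          omega
      obtain ⟨u, h1, h2, h3, h4⟩ := key (p tF + 1 - (p t0 + κ + 1)).toNat (by omega)
      have e1 := hlab1 u
      have e2 := hlab2 u
      rw [h4] at e1 e2
      have e3 := hlab1 u1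
      have e4 := hlab2 u1
      have e5 : S (lab u1 + 1) ≤ S (lab u1) + 2 * L := by
        rcases Nat.eq_zero_or_pos (lab u1) with h | h
        · rw [h, zero_add, h0]; omega
        · exact (hS _ h).2
      have e6 : ∀ a b : ℕ, a ≤ b → |p b - p a| ≤ (b : ℤ) - a := by
        intro a b hab
        induction b, hab using Nat.le_induction with
        | base => simp
        | succ b hab ih =>
          have h1 := abs_le.1 (hp b)
          have h2 := abs_le.1 ih
          rw [abs_le]
          push_cast
          constructor <;> omega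
      have e7 : u1 ≤ u := by
        have := hord (p u) (p u1) u u1 (by omega) rfl hu1 rfl
          (fun v hv1 hv2 => by have := h3 v hv1 hv2; omega)
        omega
      have e8 := abs_le.1 (e6 u1 u e7)
      omega
    obtain ⟨za, ua, ub, ha1, ha2, ha3, ha4, ha5, hb1, hb2, hb3, hb4, hb5⟩ := hA
    obtain ⟨hl0, hl0k, hg0', hst0, v0, hv01, hv02, hv03⟩ := hE za ua (lab ua) ha1 ha3 ha4
      (hlab1 ua) (hlab2 ua) ⟨tG, htG.1, htG.2, by omega⟩ (fun w hw1 hw2 hw3 => by
        have e1 : w ≤ ub := by
          by_contra h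
          have := hb3 w (by omega) (by omega)
          omega
        have e2 := hlab2 ub
        have e3 := hmono (show lab ub + 1 ≤ lab ua by omega)
        omega)
    have hl1 : lab ua = lab u1 + 1 := by
      have e1 : v0 ≤ ub := by
        by_contra h
        have := hb3 v0 (by omega) (by have := hlab1 ua; omega)
        omega
      have e2 := lable ub (lab ua - 1) (by omega)
      omega
    -- Claim B
    have hB : ∀ n : ℕ, p tF + 1 + n ≤ p tG → ∃ u, u < t0 ∧ p u = p tF + 1 + n ∧
        (∀ v, u < v → v ≤ t0 → p v < p tF + 1 + n) ∧ 2 ≤ lab u ∧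
        ∀ j, lab u ≤ j + 1 → j ≤ lab u1 + 1 → good j := by
      intro n
      induction n with
      | zero =>
        intro _
        refine ⟨u1, hu1, by simpa using hu1', by simpa using hu1'', by omega, fun j h1 h2 => ?_⟩
        exact hg0' j (by omega) (by omega)
      | succ n ih =>
        intro hn
        push_cast at hn
        obtain ⟨u, h1, h2, h3, h4, h5⟩ := ih (by omega)
        by_cases hc : ∃ t, S (lab u) ≤ t ∧ t < t0 ∧ p t = p tF + 1 + n + 1
        · obtain ⟨t, hc1, hc2, hc3⟩ := hc
          obtain ⟨u', h6, h7, h8, h9⟩ := hVex t (p tF + 1 + n + 1) hc2 (by omega) (by omega)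
          have h10 := hord _ _ u u' (by omega) h8 h7 h2 h3
          have h11 := labmono u' u (by omega)
          have h12 := lable u' (lab u) (by omega)
          refine ⟨u', h7, by push_cast; omega, fun v hv1 hv2 => ?_, by omega, ?_⟩
          · have := h9 v hv1 hv2
            push_cast
            omega
          · rw [show lab u' = lab u by omega]
            exact h5
        · push Not at hc
          obtain ⟨h6, h7, h8, -, v, hv1, hv2, hv3⟩ := hE (p tF + 1 + n) u (lab u) (by omega) h1 h2
            (hlab1 u) (hlab2 u) ⟨tG, htG.1, htG.2, by omega⟩ (fun w hw1 hw2 => by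
              have := hc w hw1 hw2
              omega)
          have h9 : S (lab u) ≤ u := hlab1 u
          obtain ⟨u', h10, h11, h12, h13⟩ := hVex v (p tF + 1 + n + 1) (by omega) (by omega)
            (by omega)
          have h14 : u' < S (lab u) := by
            by_contra h
            exact hc u' (by omega) h11 h12
          have h15 := lable u' (lab u - 1) (by omega)
          have h16 := labge u' (lab u - 1) (by rw [Nat.sub_add_cancel (by omega)]; exact h14)
          refine ⟨u', h11, by push_cast; omega, fun v hv1 hv2 => ?_, by omega, fun j hj1 hj2 => ?_⟩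
          · have := h13 v hv1 hv2
            push_cast
            omega
          · rcases Nat.lt_or_ge (j + 1) (lab u) with h | h
            · exact h8 j (by omega) (by omega)
            · exact h5 j h hj2
    obtain ⟨u2, h21, h22, h23, h24, h25⟩ := hB (p tG - (p tF + 1)).toNat (by omega)
    have hu21 : u2 ≤ u1 := by
      rcases lt_or_eq_of_le hz1G with h | h
      · have := hord (p u1) (p u2) u1 u2 (by omega) rfl h21 rfl
          (fun v hv1 hv2 => by have := hu1'' v hv1 hv2; omega)
        omega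
      · by_contra h'
        have := hu1'' u2 (by omega) (by omega)
        omega
    have hl21 := labmono u2 u1 hu21
    refine ⟨lab u2 - 1, lab u1 + 1, by omega, by omega, fun j hj1 hj2 => h25 j (by omega) hj2, ?_,
      ?_⟩
    · obtain ⟨s, hs, hs'⟩ := hst (lab u2 - 1) (lab u1 + 1) (by omega)
        fun j hj1 hj2 => h25 j (by omega) hj2
      rcases hs with rfl | rfl
      · exfalso
        have e0 := hS (lab ua - 1) (by omega)
        rw [Nat.sub_add_cancel (by omega)] at e0
        have e1 : S (lab u2 - 1) ≤ S (lab ua - 1) := hmono (by omega)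
        have e2 : S (lab ua) < S (lab u1 + 1 + 1) := by
          rw [hl1]
          have := hS (lab u1 + 1) (by omega)
          omega
        have e3 : S (lab ua - 2) ≤ S (lab ua - 1) := hmono (by omega)
        have e4 : S (lab ua + 1) ≤ S (lab ua + 3) := hmono (by omega)
        have e5 := hS (lab ua) (by omega)
        have f1 := hs' (S (lab ua - 1)) (S (lab ua)) e1 (by omega) e2
        have f2 := hst0 (S (lab ua - 1)) (S (lab ua)) e3 (by omega) (by omega)
        omega
      · exact hs'
    · intro z hz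
      have hz' := hReg z hz
      obtain ⟨u, h1, h2, h3, -, -⟩ := hB (z - (p tF + 1)).toNat (by omega)
      have h2' : p u = z := by omega
      have h3' : ∀ v, u < v → v ≤ t0 → p v < z := fun v hv1 hv2 => by
        have := h3 v hv1 hv2; omega
      have g1 : u2 ≤ u := by
        rcases lt_or_eq_of_le hz'.2 with h | h
        · have := hord z (p u2) u u2 (by omega) rfl h21 h2' h3'
          omega
        · by_contra h'
          have := h3' u2 (by omega) (by omega)
          omega
      have g2 : u ≤ u1 := by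
        rcases lt_or_eq_of_le hz'.1 with h | h
        · have := hord (p tF + 1) z u1 u (by omega) h2' h1 hu1' hu1''
          omega
        · by_contra h'
          have := hu1'' u (by omega) (by omega)
          omega
      refine ⟨u, ?_, ?_, h2', fun t ht1 ht2 => ?_⟩
      · rw [Nat.sub_add_cancel (by omega)]
        have := hlab1 u2
        omega
      · have := hlab2 u1
        omega
      · have := h3' t ht1 (by omega)
        omega

end Pool.Agent.Helper82.EN
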